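import Pool.Agent.Q110.PSI.Defs

/-!
# A blow-up of the directed four-cycle
-/

set_option autoImplicit false

namespace Q110.PSI

/-- The circular digraph with steps `1, ..., (m - 1) / 3`. -/
def circ (m : ℕ) [NeZero m] (i j : ZMod m) : Prop := 1 ≤ (j - i).val ∧ (j - i).val ≤ (m - 1) / 3

lemma card_circ_aux (m : ℕ) [NeZero m] :
    Nat.card {s : ZMod m // 1 ≤ s.val ∧ s.val ≤ (m - 1) / 3} = (m - 1) / 3 := by
  have hm : 0 < m := Nat.pos_of_ne_zero (NeZero.ne m)
  have h : Nat.card {s : ZMod m // 1 ≤ s.val ∧ s.val ≤ (m - 1) / 3} =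
      Nat.card (Finset.Icc 1 ((m - 1) / 3)) := by
    refine Nat.card_congr ⟨fun s => ⟨s.1.val, Finset.mem_Icc.2 s.2⟩,
      fun t => ⟨(t.1 : ZMod m), ?_⟩, ?_, ?_⟩
    · have h1 := Finset.mem_Icc.1 t.2
      rw [ZMod.val_natCast, Nat.mod_eq_of_lt (by omega)]
      exact h1
    · intro s
      simp
    · intro t
      have h1 := Finset.mem_Icc.1 t.2
      ext
      simp only
      rw [ZMod.val_natCast, Nat.mod_eq_of_lt (by omega)]
  rw [h, Nat.card_eq_fintype_card, Fintype.card_coe, Nat.card_Icc]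
  omega

lemma card_out (m : ℕ) [NeZero m] (i : ZMod m) : Nat.card {j // circ m i j} = (m - 1) / 3 := by
  rw [← card_circ_aux m]
  refine Nat.card_congr ⟨fun j => ⟨j.1 - i, j.2⟩, fun s => ⟨s.1 + i, by
    unfold circ; rw [add_sub_cancel_right]; exact s.2⟩, fun j => by simp, fun s => by simp⟩

lemma card_in (m : ℕ) [NeZero m] (i : ZMod m) : Nat.card {j // circ m j i} = (m - 1) / 3 := by
  rw [← card_circ_aux m]
  refine Nat.card_congr ⟨fun j => ⟨i - j.1, j.2⟩, fun s => ⟨i - s.1, by
    unfold circ; rw [sub_sub_cancel]; exact s.2⟩, fun j => by simp, fun s => by simp⟩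

lemma circ_asymm (m : ℕ) [NeZero m] {i j : ZMod m} (h : circ m i j) : ¬ circ m j i := by
  intro h'
  have hm : 0 < m := Nat.pos_of_ne_zero (NeZero.ne m)
  have h1 : (j - i) + (i - j) = 0 := by ring
  have h2 : (((j - i).val + (i - j).val : ℕ) : ZMod m) = 0 := by
    push_cast
    rw [ZMod.natCast_zmod_val, ZMod.natCast_zmod_val, h1]
  rw [ZMod.natCast_eq_zero_iff] at h2
  have := Nat.le_of_dvd (by have := h.1; omega) h2
  have h3 := h.2
  have h4 := h'.2
  omega

lemma circ_triangle (m : ℕ) [NeZero m] {i j k : ZMod m} (h : circ m i j) (h' : circ m j k)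
    (h'' : circ m k i) : False := by
  have hm : 0 < m := Nat.pos_of_ne_zero (NeZero.ne m)
  have h1 : (j - i) + (k - j) + (i - k) = 0 := by ring
  have h2 : (((j - i).val + (k - j).val + (i - k).val : ℕ) : ZMod m) = 0 := by
    push_cast
    rw [ZMod.natCast_zmod_val, ZMod.natCast_zmod_val, ZMod.natCast_zmod_val, h1]
  rw [ZMod.natCast_eq_zero_iff] at h2
  have := Nat.le_of_dvd (by have := h.1; omega) h2
  have h3 := h.2
  have h4 := h'.2
  have h5 := h''.2
  omega

/-- The vertex set of the construction: four classes, of sizes `x, y, x, y`. -/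
abbrev VV (x y : ℕ) : Type := (Bool × ZMod x) ⊕ (Bool × ZMod y)

/-- The blow-up of the directed four-cycle whose classes carry circular digraphs. -/
def arc (x y : ℕ) [NeZero x] [NeZero y] : VV x y → VV x y → Prop
  | .inl (p, i), .inl (q, j) => p = q ∧ circ x i j
  | .inr (p, i), .inr (q, j) => p = q ∧ circ y i j
  | .inl (p, _), .inr (q, _) => q = p
  | .inr (p, _), .inl (q, _) => q = !p

variable (x y : ℕ) [NeZero x] [NeZero y]

lemma arc_oriented : Oriented (arc x y) := by
  rintro (⟨p, i⟩ | ⟨p, i⟩) (⟨q, j⟩ | ⟨q, j⟩) h h'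
  · exact circ_asymm x h.2 h'.2
  · simp only [arc] at h h'
    subst h
    cases q <;> simp at h'
  · simp only [arc] at h h'
    subst h'
    cases p <;> simp at h
  · exact circ_asymm y h.2 h'.2

lemma arc_triangle : ¬ HasTriangle (arc x y) := by
  rintro ⟨a, b, c, h1, h2, h3⟩
  rcases a with ⟨p, i⟩ | ⟨p, i⟩ <;> rcases b with ⟨q, j⟩ | ⟨q, j⟩ <;>
    rcases c with ⟨r, k⟩ | ⟨r, k⟩ <;> simp only [arc] at h1 h2 h3
  · exact circ_triangle x h1.2 h2.2 h3.2
  · obtain ⟨rfl, _⟩ := h1
    subst h2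
    cases r <;> simp at h3
  · obtain ⟨rfl, _⟩ := h3
    subst h1
    cases q <;> simp at h2
  · obtain ⟨rfl, _⟩ := h2
    subst h1
    cases q <;> simp at h3
  · obtain ⟨rfl, _⟩ := h2
    subst h3
    cases p <;> simp at h1
  · obtain ⟨rfl, _⟩ := h3
    subst h2
    cases r <;> simp at h1
  · obtain ⟨rfl, _⟩ := h1
    subst h3
    cases p <;> simp at h2
  · exact circ_triangle y h1.2 h2.2 h3.2

lemma outDeg_inl (p : Bool) (i : ZMod x) : outDeg (arc x y) (.inl (p, i)) = y + (x - 1) / 3 := by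
  have e : {w // arc x y (.inl (p, i)) w} ≃ ZMod y ⊕ {j // circ x i j} :=
    { toFun := fun w => match w with
        | ⟨.inl (_, j), h⟩ => .inr ⟨j, h.2⟩
        | ⟨.inr (_, j), _⟩ => .inl j
      invFun := fun w => match w with
        | .inr j => ⟨.inl (p, j.1), ⟨rfl, j.2⟩⟩
        | .inl j => ⟨.inr (p, j), rfl⟩
      left_inv := by
        rintro ⟨⟨q, j⟩ | ⟨q, j⟩, h⟩
        · simp only [arc] at h
          simp [h.1]
        · simp only [arc] at h
          simp [h]
      right_inv := by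
        rintro (j | j) <;> rfl }
  rw [outDeg, Nat.card_congr e, Nat.card_sum, Nat.card_zmod, card_out]

lemma inDeg_inl (p : Bool) (i : ZMod x) : inDeg (arc x y) (.inl (p, i)) = y + (x - 1) / 3 := by
  have e : {w // arc x y w (.inl (p, i))} ≃ ZMod y ⊕ {j // circ x j i} :=
    { toFun := fun w => match w with
        | ⟨.inl (_, j), h⟩ => .inr ⟨j, h.2⟩
        | ⟨.inr (_, j), _⟩ => .inl j
      invFun := fun w => match w with
        | .inr j => ⟨.inl (p, j.1), ⟨rfl, j.2⟩⟩
        | .inl j => ⟨.inr (!p, j), by simp [arc]⟩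
      left_inv := by
        rintro ⟨⟨q, j⟩ | ⟨q, j⟩, h⟩
        · simp only [arc] at h
          simp [h.1]
        · simp only [arc] at h
          simp [h]
      right_inv := by
        rintro (j | j) <;> rfl }
  rw [inDeg, Nat.card_congr e, Nat.card_sum, Nat.card_zmod, card_in]

lemma outDeg_inr (p : Bool) (i : ZMod y) : outDeg (arc x y) (.inr (p, i)) = x + (y - 1) / 3 := by
  have e : {w // arc x y (.inr (p, i)) w} ≃ ZMod x ⊕ {j // circ y i j} :=
    { toFun := fun w => match w with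
        | ⟨.inr (_, j), h⟩ => .inr ⟨j, h.2⟩
        | ⟨.inl (_, j), _⟩ => .inl j
      invFun := fun w => match w with
        | .inr j => ⟨.inr (p, j.1), ⟨rfl, j.2⟩⟩
        | .inl j => ⟨.inl (!p, j), rfl⟩
      left_inv := by
        rintro ⟨⟨q, j⟩ | ⟨q, j⟩, h⟩
        · simp only [arc] at h
          simp [h]
        · simp only [arc] at h
          simp [h.1]
      right_inv := by
        rintro (j | j) <;> rfl }
  rw [outDeg, Nat.card_congr e, Nat.card_sum, Nat.card_zmod, card_out]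

lemma inDeg_inr (p : Bool) (i : ZMod y) : inDeg (arc x y) (.inr (p, i)) = x + (y - 1) / 3 := by
  have e : {w // arc x y w (.inr (p, i))} ≃ ZMod x ⊕ {j // circ y j i} :=
    { toFun := fun w => match w with
        | ⟨.inr (_, j), h⟩ => .inr ⟨j, h.2⟩
        | ⟨.inl (_, j), _⟩ => .inl j
      invFun := fun w => match w with
        | .inr j => ⟨.inr (p, j.1), ⟨rfl, j.2⟩⟩
        | .inl j => ⟨.inl (p, j), rfl⟩
      left_inv := by
        rintro ⟨⟨q, j⟩ | ⟨q, j⟩, h⟩
        · simp only [arc] at h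
          simp [h]
        · simp only [arc] at h
          simp [h.1]
      right_inv := by
        rintro (j | j) <;> rfl }
  rw [inDeg, Nat.card_congr e, Nat.card_sum, Nat.card_zmod, card_in]

lemma connectivity_le : connectivity (arc x y) ≤ x := by
  classical
  set S : Finset (VV x y) := Finset.univ.image fun i : ZMod x => (.inl (false, i) : VV x y) with hS
  have hle : Disconnects (arc x y) S → connectivity (arc x y) ≤ S.card :=
    fun h => Nat.sInf_le ⟨S, h, rfl⟩
  refine (hle ?_).trans ?_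
  · refine ⟨.inr (true, 0), by simp [hS], .inr (false, 0), by simp [hS], fun h => ?_⟩
    have key : ∀ w, Relation.ReflTransGen (fun a b => arc x y a b ∧ a ∉ S ∧ b ∉ S)
        (.inr (true, 0)) w → ∃ j, w = .inr (true, j) := by
      intro w hw
      induction hw with
      | refl => exact ⟨0, rfl⟩
      | tail _ hbc ih =>
        obtain ⟨j, rfl⟩ := ih
        rename_i c _
        rcases c with ⟨q, k⟩ | ⟨q, k⟩
        · obtain ⟨h1, _, h3⟩ := hbc
          simp only [arc, Bool.not_true] at h1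
          subst h1
          exact absurd (by simp [hS]) h3
        · obtain ⟨h1, _, _⟩ := hbc
          simp only [arc] at h1
          obtain ⟨rfl, _⟩ := h1
          exact ⟨k, rfl⟩
    obtain ⟨j, hj⟩ := key _ h
    simp at hj
  · calc S.card ≤ (Finset.univ : Finset (ZMod x)).card := Finset.card_image_le
      _ = x := by rw [Finset.card_univ, ZMod.card]

theorem not_admissible {r ψ : ℝ} (hr : 3 < r) (hr6 : r < 6) (hψ : (6 - r) / 4 < ψ) :
    ¬ Admissible r ψ := by
  rintro ⟨_, _, h⟩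
  set ψ' : ℝ := min ψ (3 / 4) with hψ'
  have h1 : (6 - r) / 4 < ψ' := lt_min hψ (by linarith)
  set ε : ℝ := ψ' - (6 - r) / 4 with hε
  have hε0 : 0 < ε := by linarith
  obtain ⟨d, hd⟩ := exists_nat_gt (3 / 2 / ε)
  have hd' : 3 / 2 < d * ε := by rwa [div_lt_iff₀ hε0] at hd
  have hd0 : (0 : ℝ) < d := by
    by_contra hcon
    have : (d : ℝ) * ε ≤ 0 := mul_nonpos_of_nonpos_of_nonneg (not_lt.1 hcon) hε0.le
    linarith
  have hd1 : 1 ≤ d := by exact_mod_cast hd0
  set x : ℕ := ⌈((6 - r) * d + 2) / 4⌉₊ with hx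
  have hx1 : ((6 - r) * d + 2) / 4 ≤ x := Nat.le_ceil _
  have hpos : 0 < (6 - r) * d := mul_pos (by linarith) hd0
  have hx2 : (x : ℝ) < ((6 - r) * d + 2) / 4 + 1 := Nat.ceil_lt_add_one (by linarith)
  have hx3 : (x : ℝ) ≤ ψ' * d := by
    have : ψ' = ε + (6 - r) / 4 := by rw [hε]; ring
    rw [this]
    nlinarith
  have hx4 : (x : ℝ) ≤ 3 / 4 * d :=
    hx3.trans (mul_le_mul_of_nonneg_right (min_le_right _ _) hd0.le)
  have hx5 : (x : ℝ) ≤ ψ * d :=
    hx3.trans (mul_le_mul_of_nonneg_right (min_le_left _ _) hd0.le)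
  have hx0 : 0 < x := by
    have : (0 : ℝ) < x := by linarith
    exact_mod_cast this
  have hx6 : 4 * x ≤ 3 * d := by
    have : (4 : ℝ) * x ≤ 3 * d := by linarith
    exact_mod_cast this
  have hxn : 6 * (d : ℝ) + 2 - 4 * x ≤ r * d := by nlinarith
  obtain ⟨e, he⟩ : ∃ e, d = x + e := ⟨d - x, by omega⟩
  set y : ℕ := 3 * e + 1 with hy
  have : NeZero x := ⟨hx0.ne'⟩
  have : NeZero y := ⟨by omega⟩
  have hy3 : (y - 1) / 3 = e := by omega
  have hcon := h d hd1 (VV x y) (arc x y) (arc_oriented x y) ?_ ?_ ?_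
  · exact arc_triangle x y hcon
  · constructor
    · rintro (⟨p, i⟩ | ⟨p, i⟩)
      · rw [outDeg_inl, inDeg_inl]
        omega
      · rw [outDeg_inr, inDeg_inr, hy3]
        omega
    · exact ⟨.inr (true, 0), Or.inl (by rw [outDeg_inr, hy3, he])⟩
  · have hc : Fintype.card (VV x y) = 2 * x + 2 * y := by
      simp [VV, ZMod.card]
    rw [hc]
    refine le_trans (le_of_eq ?_) hxn
    rw [he, hy]
    push_cast
    ring
  · refine le_trans ?_ hx5
    exact_mod_cast connectivity_le x y

theorem psi_le {r : ℝ} (hr : 3 < r) (hr6 : r < 6) : psi r ≤ (6 - r) / 4 := by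
  refine Real.sSup_le (fun ψ hψ => ?_) (by linarith)
  by_contra hcon
  exact not_admissible hr hr6 (not_le.1 hcon) hψ

end Q110.PSI
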