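import Mathlib

/-!
# Connectivity thresholds forcing directed triangles: definitions

A digraph on `V` is given by its arc relation `A : V → V → Prop`.
-/

set_option autoImplicit false

namespace Q110.PSI

/-- Oriented graph: at most one of `(x, y)`, `(y, x)` is an arc (and there are no loops). -/
def Oriented {V : Type*} (A : V → V → Prop) : Prop := ∀ x y, A x y → ¬ A y x

/-- The out-degree of a vertex. -/
noncomputable def outDeg {V : Type*} (A : V → V → Prop) (v : V) : ℕ := Nat.card {w // A v w}

/-- The in-degree of a vertex. -/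
noncomputable def inDeg {V : Type*} (A : V → V → Prop) (v : V) : ℕ := Nat.card {w // A w v}

/-- The minimum semi-degree is `d`. -/
def MinSemidegreeEq {V : Type*} (A : V → V → Prop) (d : ℕ) : Prop :=
  (∀ v, d ≤ outDeg A v ∧ d ≤ inDeg A v) ∧ ∃ v, outDeg A v = d ∨ inDeg A v = d

/-- The digraph has a directed cycle of length three. -/
def HasTriangle {V : Type*} (A : V → V → Prop) : Prop := ∃ x y z, A x y ∧ A y z ∧ A z x

/-- The set `S` disconnects the digraph: after removing `S` there are two vertices `u`, `v` without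
a directed path from `u` to `v`. -/
def Disconnects {V : Type*} (A : V → V → Prop) (S : Finset V) : Prop :=
  ∃ u, u ∉ S ∧ ∃ v, v ∉ S ∧ ¬ Relation.ReflTransGen (fun a b => A a b ∧ a ∉ S ∧ b ∉ S) u v

/-- The strong connectivity: the least size of a disconnecting set. -/
noncomputable def connectivity {V : Type*} (A : V → V → Prop) : ℕ :=
  sInf {k | ∃ S : Finset V, Disconnects A S ∧ S.card = k}

/-- `ψ` is admissible for `r`. -/
def Admissible (r ψ : ℝ) : Prop :=
  0 < ψ ∧ ψ ≤ 1 ∧ ∀ d : ℕ, 1 ≤ d → ∀ (V : Type) [Fintype V] (A : V → V → Prop), Oriented A →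
    MinSemidegreeEq A d → (Fintype.card V : ℝ) ≤ r * d → (connectivity A : ℝ) ≤ ψ * d →
    HasTriangle A

/-- The threshold `ψ(r)`. -/
noncomputable def psi (r : ℝ) : ℝ := sSup {ψ | Admissible r ψ}

end Q110.PSI
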